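import Pool.Agent.Lib.MP_496a9e_al.Q.I6

/-!
# The Sobolev gaps of all Harish-Chandra modules of a real reductive group are bounded

For every real reductive group `G` and every weight `w` on `G` there is a number `s` such that the
Sobolev gap `s(V,w)` of every Harish-Chandra module `V` is at most `s`. This answers Q1 completely.
-/

namespace Pool.Agent.Results.MP_496a9e_al.AllReductive

open Pool.Agent.RG

universe u v

/-- For every real reductive group `G` and every weight `w` on `G` there is `s ≥ 0` such that
`s(V,w) ≤ s` for all Harish-Chandra modules `V` of `G` and every choice of the `K`-Laplacian. -/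
theorem result {G : Type u} [Group G] [TopologicalSpace G] [IsTopologicalGroup G] [T2Space G]
    {N : ℕ} (S : RData G N) (hS : IsRed S) (w : G → ℝ) (hw : IsWeight w) :
    ∃ s : ℝ, 0 ≤ s ∧ ∀ (D : ℕ) (b : Fin D → Mat N), IsSpanK S b →
      ∀ (V : Type v) [AddCommGroup V] [Module ℂ V] (M : GK G N V),
        IsGK S M → IsHC S M → gap S M w b ≤ ENNReal.ofReal s :=
  main_gen hS hw

end Pool.Agent.Results.MP_496a9e_al.AllReductive
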